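import Mathlib
import Pool.Agent.Helper97.BD.T4

/-!
Unirationality in bounded degree: for all `d` and `s` there is a number `N` such that every
irreducible component `X` of every closed subset of affine space, of any dimension, which is defined
by arbitrary equations in `s` polynomials of degree at most `d`, is unirational if and only if an
explicit closed subvariety `Z` of the affine space of dimension `M ≤ N` is; `Z` is the closure of the
image of `X` under a map given by `M` polynomials of degree at most `d`.
-/

namespace Pool.Agent.Results.MP_1dc56d_ag.BoundedDegree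

open MvPolynomial
open Pool.Agent.Helper97.QW
open Pool.Agent.Helper97.BD

universe u

variable {k : Type u} [Field k] {n m s M : ℕ}

/-- The ideal of the polynomials in `n` variables generated by the `P(f_1, …, f_s)`, `P ∈ J`: it
defines the preimage `f⁻¹(V(J))`. -/
noncomputable def PreIdeal (f : Fin s → MvPolynomial (Fin n) k)
    (J : Ideal (MvPolynomial (Fin s) k)) : Ideal (MvPolynomial (Fin n) k) :=
  J.map (aeval f : MvPolynomial (Fin s) k →ₐ[k] MvPolynomial (Fin n) k)

/-- The ideal of the polynomials `P` with `P(G_1, …, G_M) ∈ I`: for `X = V(I)` it is the ideal of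
the closure of the image `G(X)`. -/
noncomputable def ImageIdeal (G : Fin M → MvPolynomial (Fin n) k)
    (I : Ideal (MvPolynomial (Fin n) k)) : Ideal (MvPolynomial (Fin M) k) :=
  I.comap (aeval G : MvPolynomial (Fin M) k →ₐ[k] MvPolynomial (Fin n) k)

/-- For a prime `I` with `X = V(I)`: the function field `k(X)` embeds over `k` in some
`k(t_1, …, t_m)`, that is, `X` is unirational. -/
def Unirat (I : Ideal (MvPolynomial (Fin n) k)) : Prop :=
  ∃ m : ℕ, Nonempty (FractionRing (MvPolynomial (Fin n) k ⧸ I) →ₐ[k]
    FractionRing (MvPolynomial (Fin m) k))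

/-- For a prime `I` with `X = V(I)` and a field `K` over `k`: `x` is a generic point of `X` with
coordinates in `K` (a polynomial vanishes at `x` if and only if it is in `I`), the elements
`t_1, …, t_e` of `K` are algebraically independent over the field `k(G(x))` generated over `k` by the
values `G_i(x)`, and all coordinates of `x` are in `k(G(x))(t_1, …, t_e)`. -/
def IsParam {K : Type u} [Field K] [Algebra k K] (G : Fin M → MvPolynomial (Fin n) k)
    (I : Ideal (MvPolynomial (Fin n) k)) {e : ℕ} (t : Fin e → K) (x : Fin n → K) : Prop :=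
  (∀ P : MvPolynomial (Fin n) k, aeval x P = 0 ↔ P ∈ I) ∧
    AlgebraicIndependent (IntermediateField.adjoin k (Set.range fun i => aeval x (G i))) t ∧
    ∀ v, x v ∈ IntermediateField.adjoin k ((Set.range fun i => aeval x (G i)) ∪ Set.range t)

/-- For a prime `I` with `X = V(I)`, polynomials `G = (G_1, …, G_M)` and the closure `Z` of `G(X)`:
the function field `k(X)` embeds over `k(Z)` in some `k(Z)(t_1, …, t_e)`. -/
def UniratOver (G : Fin M → MvPolynomial (Fin n) k) (I : Ideal (MvPolynomial (Fin n) k)) : Prop :=
  ∃ (K : Type u) (_ : Field K) (_ : Algebra k K) (e : ℕ) (t : Fin e → K) (x : Fin n → K),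
    IsParam G I t x

theorem uniratOver_of_hom {G : Fin M → MvPolynomial (Fin n) k} {I : Ideal (MvPolynomial (Fin n) k)}
    [hIp : I.IsPrime] {e : ℕ} (ψ : FractionRing (MvPolynomial (Fin n) k ⧸ I) →ₐ[k]
      FractionRing (MvPolynomial (Fin e) (MvPolynomial (Fin M) k ⧸ ImageIdeal G I)))
    (hψ : ∀ i, ψ (algebraMap (MvPolynomial (Fin n) k ⧸ I) _ (Ideal.Quotient.mk I (G i))) =
      algebraMap (MvPolynomial (Fin e) (MvPolynomial (Fin M) k ⧸ ImageIdeal G I)) _
        (C (Ideal.Quotient.mk _ (X i)))) : UniratOver G I := by
  haveI hJp : (ImageIdeal G I).IsPrime := Ideal.IsPrime.comap _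
  let A := MvPolynomial (Fin n) k ⧸ I
  let A' := MvPolynomial (Fin M) k ⧸ ImageIdeal G I
  let E := MvPolynomial (Fin e) A'
  let K := FractionRing E
  let κ : MvPolynomial (Fin n) k →ₐ[k] FractionRing A :=
    ((Algebra.ofId A (FractionRing A)).restrictScalars k).comp (Ideal.Quotient.mkₐ k I)
  have hκ : ∀ P : MvPolynomial (Fin n) k, κ P = 0 ↔ P ∈ I := by
    intro P
    rw [← Ideal.Quotient.eq_zero_iff_mem]
    exact map_eq_zero_iff (algebraMap A (FractionRing A)) (IsFractionRing.injective A _)
  let x : Fin n → K := fun v => ψ (κ (X v))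
  have hx : ∀ P : MvPolynomial (Fin n) k, aeval x P = ψ (κ P) := by
    intro P
    have h1 : (aeval x : MvPolynomial (Fin n) k →ₐ[k] K) = ψ.comp κ := by
      apply MvPolynomial.algHom_ext
      intro v
      rw [aeval_X]
      rfl
    rw [h1]
    rfl
  let lam : A' →ₐ[k] K := ((Algebra.ofId E K).restrictScalars k).comp
    ((Algebra.ofId A' E).restrictScalars k)
  have hlam : Function.Injective lam :=
    (IsFractionRing.injective E K).comp (C_injective (Fin e) A')
  have hz : ∀ i, aeval x (G i) = lam (Ideal.Quotient.mk _ (X i)) := fun i =>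
    (hx (G i)).trans (hψ i)
  have hadj : Algebra.adjoin k (Set.range fun i => aeval x (G i)) = lam.range := by
    apply le_antisymm
    · rw [Algebra.adjoin_le_iff]
      rintro _ ⟨i, rfl⟩
      exact ⟨_, (hz i).symm⟩
    · rintro _ ⟨a, rfl⟩
      obtain ⟨P, rfl⟩ := Ideal.Quotient.mk_surjective a
      have h1 : lam.comp (Ideal.Quotient.mkₐ k (ImageIdeal G I)) =
          aeval (fun i => aeval x (G i)) := by
        apply MvPolynomial.algHom_ext
        intro i
        rw [aeval_X, hz]
        rfl
      have h2 : lam (Ideal.Quotient.mk _ P) = aeval (fun i => aeval x (G i)) P :=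
        DFunLike.congr_fun h1 P
      change lam (Ideal.Quotient.mk _ P) ∈ _
      rw [h2, Algebra.adjoin_range_eq_range_aeval]
      exact ⟨P, rfl⟩
  refine ⟨K, inferInstance, inferInstance, e, fun i => algebraMap E K (X i), x, ?_, ?_, ?_⟩
  · intro P
    rw [hx]
    constructor
    · intro h
      rw [← hκ]
      apply ψ.toRingHom.injective
      exact Eq.trans h (map_zero ψ).symm
    · intro h
      exact (congrArg ψ ((hκ P).mpr h)).trans (map_zero ψ)
  · rw [IntermediateField.algebraicIndependent_adjoin_iff, hadj]
    have h1 : AlgebraicIndependent A' (fun i => algebraMap E K (X i)) := by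
      have h2 : AlgebraicIndependent A' (X : Fin e → E) := MvPolynomial.algebraicIndependent_X _ _
      exact h2.map' (f := (Algebra.ofId E K).restrictScalars A') (IsFractionRing.injective E K)
    have h3 := h1.ringHom_of_comp_eq (S := lam.range) (f := (lam.rangeRestrict : A' →+* lam.range))
      (g := RingHom.id K) lam.rangeRestrict_surjective Function.injective_id
      (RingHom.ext fun a => (IsScalarTower.algebraMap_apply A' E K a).symm)
    exact h3
  · set F := IntermediateField.adjoin k ((Set.range fun i => aeval x (G i)) ∪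
      Set.range (fun i => algebraMap E K (X i))) with hF
    have h1 : ∀ a : E, algebraMap E K a ∈ F := by
      intro a
      induction a using MvPolynomial.induction_on with
      | C a =>
        have h2 : lam a ∈ Algebra.adjoin k (Set.range fun i => aeval x (G i)) := by
          rw [hadj]
          exact ⟨a, rfl⟩
        have h3 : Algebra.adjoin k (Set.range fun i => aeval x (G i)) ≤ F.toSubalgebra := by
          rw [Algebra.adjoin_le_iff]
          intro y hy
          exact IntermediateField.subset_adjoin k _ (Or.inl hy)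
        exact h3 h2
      | add p q hp hq =>
        rw [map_add]
        exact F.add_mem hp hq
      | mul_X p i hp =>
        rw [map_mul]
        exact F.mul_mem hp (IntermediateField.subset_adjoin k _ (Or.inr ⟨i, rfl⟩))
    intro v
    obtain ⟨a, b, -, hab⟩ := IsFractionRing.div_surjective (A := E) (x v)
    rw [← hab]
    exact F.div_mem (h1 a) (h1 b)

theorem result (k : Type u) [Field k] [IsAlgClosed k] [CharZero k] (d s : ℕ) :
    ∃ N : ℕ, ∀ (n : ℕ) (f : Fin s → MvPolynomial (Fin n) k) (J : Ideal (MvPolynomial (Fin s) k))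
      (I : Ideal (MvPolynomial (Fin n) k)), (∀ j, (f j).totalDegree ≤ d) →
      I ∈ (PreIdeal f J).minimalPrimes →
      ∃ (M : ℕ) (G : Fin M → MvPolynomial (Fin n) k) (P : Fin s → MvPolynomial (Fin M) k),
        M ≤ N ∧ (∀ i, (G i).totalDegree ≤ d) ∧ (∀ j, aeval G (P j) = f j) ∧
        I ∈ (PreIdeal G (ImageIdeal G I)).minimalPrimes ∧ UniratOver G I ∧
        (Unirat I ↔ Unirat (ImageIdeal G I)) := by
  obtain ⟨N, hN⟩ := bounded (k := k) d s
  refine ⟨N, fun n f J I hf hI => ?_⟩
  obtain ⟨M, G, P, J', hM, hG, hP, hJ', hI', ⟨e, ψ, hψ⟩, hiff⟩ := hN n f hf J I hI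
  subst hJ'
  haveI hIp : I.IsPrime := hI.1.1
  exact ⟨M, G, P, hM, hG, hP, hI', uniratOver_of_hom ψ hψ, hiff⟩

end Pool.Agent.Results.MP_1dc56d_ag.BoundedDegree
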