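import Pool.Agent.Helper44.CMF.Fin

/-!
# A one-parameter family of varieties whose rational members are given by complex multiplication
-/

set_option autoImplicit false

namespace Pool.Agent.Results.MP_1dc56d_ag.CMFamily

/-- the characteristic of `k` is `0` or at least `P` -/
def LargeChar (k : Type) [Field k] (P : ℕ) : Prop := ∀ n : ℕ, 0 < n → n < P → (n : k) ≠ 0

/-- the ideal of `k[x_0, …, x_{v-1}]` generated by the polynomials `g_j(m)`, where the `g_j` have
coefficients in `ℤ[M]` -/
noncomputable def ideal {k : Type} [Field k] {v q : ℕ}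
    (g : Fin q → MvPolynomial (Fin v) (Polynomial ℤ)) (m : k) : Ideal (MvPolynomial (Fin v) k) :=
  Ideal.span (Set.range fun j =>
    MvPolynomial.map (Polynomial.eval₂RingHom (Int.castRingHom k) m) (g j))

/-- the coordinate ring of the member `Y_m` of the family -/
abbrev CoordRing {k : Type} [Field k] {v q : ℕ}
    (g : Fin q → MvPolynomial (Fin v) (Polynomial ℤ)) (m : k) : Type :=
  MvPolynomial (Fin v) k ⧸ ideal g m

/-- the rational function field `k(t_0, …, t_{N-1})` -/
abbrev RatFunField (k : Type) [Field k] (N : ℕ) : Type := FractionRing (MvPolynomial (Fin N) k)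

/-- the function field of `Y_m` is purely transcendental over `k` -/
def IsRational {k : Type} [Field k] {v q : ℕ}
    (g : Fin q → MvPolynomial (Fin v) (Polynomial ℤ)) (m : k) : Prop :=
  ∃ N : ℕ, Nonempty (FractionRing (CoordRing g m) ≃ₐ[k] RatFunField k N)

/-- for some `p`, the function field of the product of `Y_m` with affine `p`-space is purely
transcendental over `k` -/
def IsStablyRational {k : Type} [Field k] {v q : ℕ}
    (g : Fin q → MvPolynomial (Fin v) (Polynomial ℤ)) (m : k) : Prop :=
  ∃ p N : ℕ, Nonempty (FractionRing (MvPolynomial (Fin p) (CoordRing g m)) ≃ₐ[k] RatFunField k N)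

/-- The elliptic curve `E_m : y² = x (x - 1) (x - m)` over the algebraically closed field `k` has an
endomorphism whose degree is not a square: there are `u, w` in `k(t)` with
`t (t - 1) (t - m) w² = u (u - 1) (u - m)`, i.e. a map `(t, y) ↦ (u(t), y w(t))` from `E_m` to itself,
whose degree, the degree `max (deg num, deg denom)` of `u`, is not a square. -/
def HasNonsquareEndo {k : Type} [Field k] (m : k) : Prop :=
  ∃ u w : RatFunc k, ¬ IsSquare (max u.num.natDegree u.denom.natDegree) ∧
    RatFunc.X * (RatFunc.X - 1) * (RatFunc.X - RatFunc.C m) * w ^ 2 =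
      u * (u - 1) * (u - RatFunc.C m)

/-- **The CM family.** There are finitely many polynomials `g_j` in `x_0, …, x_{v-1}` with coefficients in
`ℤ[M]` and a number `P` such that for every algebraically closed field `k` of characteristic `0` or at
least `P` and every `m ≠ 0, 1` in `k` the polynomials `g_j(m)` generate a prime ideal, and the variety
`Y_m` they define is rational iff it is stably rational iff the elliptic curve `y² = x (x - 1) (x - m)`
has an endomorphism whose degree is not a square (in characteristic `0`: has complex multiplication). -/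
theorem result : ∃ (P v q : ℕ) (g : Fin q → MvPolynomial (Fin v) (Polynomial ℤ)),
    ∀ (k : Type) [Field k] [IsAlgClosed k], LargeChar k P →
      ∀ m : k, m ≠ 0 → m ≠ 1 →
        (ideal g m).IsPrime ∧ (IsRational g m ↔ HasNonsquareEndo m) ∧
          (IsStablyRational g m ↔ HasNonsquareEndo m) := by
  obtain ⟨P, v, q, g, -, h⟩ := Pool.Agent.Helper44.CMF.aT1
  refine ⟨P, v, q, g, fun k _ _ hP m hm0 hm1 => ?_⟩
  have key : Pool.Agent.Helper44.CMF.HasCM m ↔ HasNonsquareEndo m := by
    unfold Pool.Agent.Helper44.CMF.HasCM HasNonsquareEndo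
    rw [Pool.Agent.Helper44.CMF.ff_eq]
    exact exists_congr fun u => exists_congr fun w => and_comm
  obtain ⟨h1, h2, h3⟩ := h k hP m hm0 hm1
  exact ⟨h1, h2.trans key, h3.trans key⟩

end Pool.Agent.Results.MP_1dc56d_ag.CMFamily
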