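import Pool.Agent.Helper44.RED.All2

/-!
# Rationality of varieties over an algebraically closed field is at least as hard as the existence of
# points of odd degree on projective varieties over rational function fields
-/

set_option autoImplicit false

namespace Pool.Agent.Results.MP_1dc56d_ag.OddPointReduction

/-- A polynomial with integer coefficients in the variables `x_0, x_1, …`, given by a list of monomials
(coefficient, list of the exponents of `x_0, x_1, …`). -/
abbrev Poly : Type := List (ℤ × List ℕ)

/-- the value of the polynomial `P` at the point `x` of a commutative ring -/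
def value {R : Type} [CommRing R] (P : Poly) (x : ℕ → R) : R :=
  (P.map fun a => (a.1 : R) * ∏ i ∈ Finset.range a.2.length, x i ^ a.2.getD i 0).sum

/-- the rational function field `k(t_0, …, t_{m-1})` -/
abbrev RatFunField (k : Type) [Field k] (m : ℕ) : Type := FractionRing (MvPolynomial (Fin m) k)

/-- the variables `t_j` of `k(t_0, …, t_{m-1})` (`0` for `j ≥ m`) -/
noncomputable def ratVar (k : Type) [Field k] (m : ℕ) : ℕ → RatFunField k m := fun j =>
  if h : j < m then algebraMap (MvPolynomial (Fin m) k) (RatFunField k m) (MvPolynomial.X ⟨j, h⟩)
  else 0

/-- the variables of `k[x_0, …, x_{v-1}]` (`0` for `j ≥ v`) -/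
noncomputable def polyVar (k : Type) [Field k] (v : ℕ) : ℕ → MvPolynomial (Fin v) k :=
  fun j => if h : j < v then MvPolynomial.X ⟨j, h⟩ else 0

/-- digit number `i` of `q` in base `b` -/
def digit (b q i : ℕ) : ℕ := q / b ^ i % b

/-- A projective variety over `k(t_0, …, t_{m-1})`: `(m, N, D, F)`, where `F` is a finite list of
homogeneous forms of degree `D + 1` in `N + 1` variables `y_0, …, y_N` with coefficients in
`ℤ[t_0, …, t_{m-1}]`. A form is given by the list of its coefficients: number `q < (N+1)^(D+1)` is the
coefficient of the product of the `y_{digit (N+1) q i}`, `i = 0, …, D`. -/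
abbrev System : Type := ℕ × ℕ × ℕ × List (List Poly)

/-- The forms of `A` have a common nontrivial zero over a field extension of `k(t_0, …, t_{m-1})` of odd
degree, i.e. the projective scheme defined by `A` has a closed point of odd degree. -/
def HasOddPoint (k : Type) [Field k] (A : System) : Prop :=
  ∃ (L : Type) (_ : Field L) (_ : Algebra (RatFunField k A.1) L),
    Odd (Module.finrank (RatFunField k A.1) L) ∧
    ∃ y : ℕ → L, (∃ i ≤ A.2.1, y i ≠ 0) ∧ ∀ f ∈ A.2.2.2,
      ∑ q ∈ Finset.range ((A.2.1 + 1) ^ (A.2.2.1 + 1)),
        algebraMap (RatFunField k A.1) L (value (f.getD q []) (ratVar k A.1)) *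
          ∏ i ∈ Finset.range (A.2.2.1 + 1), y (digit (A.2.1 + 1) q i) = 0

/-- An affine scheme given by equations: number `v` of variables and a finite list of polynomials with
integer coefficients. -/
abbrev Presentation : Type := ℕ × List Poly

/-- the ideal of `k[x_0, …, x_{v-1}]` generated by the equations -/
noncomputable def ideal (k : Type) [Field k] (X : Presentation) :
    Ideal (MvPolynomial (Fin X.1) k) :=
  Ideal.span {g | ∃ P ∈ X.2, g = value P (polyVar k X.1)}

/-- the coordinate ring over `k` -/
abbrev CoordRing (k : Type) [Field k] (X : Presentation) : Type :=
  MvPolynomial (Fin X.1) k ⧸ ideal k X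

/-- the equations define an (integral affine) variety over `k` -/
def IsVariety (k : Type) [Field k] (X : Presentation) : Prop := (ideal k X).IsPrime

/-- the function field over `k` is purely transcendental -/
def IsRational (k : Type) [Field k] (X : Presentation) : Prop :=
  ∃ N : ℕ, Nonempty (FractionRing (CoordRing k X) ≃ₐ[k] RatFunField k N)

/-- for some `p`, the function field of the product with affine `p`-space is purely transcendental -/
def IsStablyRational (k : Type) [Field k] (X : Presentation) : Prop :=
  ∃ p N : ℕ, Nonempty (FractionRing (MvPolynomial (Fin p) (CoordRing k X)) ≃ₐ[k] RatFunField k N)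

/-- **Odd degree points on projective varieties over rational function fields reduce to rationality.**
There is a primitive recursive function `red` from systems `A` of homogeneous forms over
`ℤ[t_0, …, t_{m-1}]` to finite systems of integer polynomials such that, for every algebraically closed
field `k` of characteristic `0`, `red A` defines a variety over `k` which is rational if and only if it is
stably rational, if and only if `A` has a common nontrivial zero over an extension of
`k(t_0, …, t_{m-1})` of odd degree. -/
theorem result : ∃ red : System → Presentation, Primrec red ∧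
    ∀ (k : Type) [Field k] [IsAlgClosed k] [CharZero k] (A : System),
      IsVariety k (red A) ∧ (IsRational k (red A) ↔ HasOddPoint k A) ∧
        (IsStablyRational k (red A) ↔ HasOddPoint k A) :=
  ⟨Pool.Agent.Helper44.RED.redu, Pool.Agent.Helper44.RED.primrec_redu,
    fun k _ _ _ A => Pool.Agent.Helper44.RED.aFinC k A⟩

end Pool.Agent.Results.MP_1dc56d_ag.OddPointReduction
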