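import Pool.Agent.Helper68.RK.Fin

/-!
# Rationality and ranks of elliptic curves over rational function fields
-/

set_option autoImplicit false

namespace Pool.Agent.Results.MP_1dc56d_ag.RankFamily

/-- the ideal of `k[x_0, …, x_{v-1}]` generated by the images `φ(g_j)` of the polynomials `g_j` over `R` -/
noncomputable def ideal {R k : Type} [CommRing R] [Field k] {v q : ℕ}
    (g : Fin q → MvPolynomial (Fin v) R) (φ : R →+* k) : Ideal (MvPolynomial (Fin v) k) :=
  Ideal.span (Set.range fun j => MvPolynomial.map φ (g j))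

/-- the coordinate ring of the member `X_φ` of the family -/
abbrev CoordRing {R k : Type} [CommRing R] [Field k] {v q : ℕ}
    (g : Fin q → MvPolynomial (Fin v) R) (φ : R →+* k) : Type :=
  MvPolynomial (Fin v) k ⧸ ideal g φ

/-- the rational function field `k(t_0, …, t_{N-1})` -/
abbrev RatFunField (k : Type) [Field k] (N : ℕ) : Type := FractionRing (MvPolynomial (Fin N) k)

/-- the function field of `X_φ` is purely transcendental over `k` -/
def IsRational {R k : Type} [CommRing R] [Field k] {v q : ℕ}
    (g : Fin q → MvPolynomial (Fin v) R) (φ : R →+* k) : Prop :=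
  ∃ N : ℕ, Nonempty (FractionRing (CoordRing g φ) ≃ₐ[k] RatFunField k N)

/-- for some `p`, the function field of the product of `X_φ` with affine `p`-space is purely
transcendental over `k` -/
def IsStablyRational {R k : Type} [CommRing R] [Field k] {v q : ℕ}
    (g : Fin q → MvPolynomial (Fin v) R) (φ : R →+* k) : Prop :=
  ∃ p N : ℕ, Nonempty (FractionRing (MvPolynomial (Fin p) (CoordRing g φ)) ≃ₐ[k] RatFunField k N)

/-- the element `f` of `k[t_1, …, t_n]` in `k(t_1, …, t_n)` -/
noncomputable def inField {k : Type} [Field k] {n : ℕ} (f : MvPolynomial (Fin n) k) : RatFunField k n :=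
  algebraMap (MvPolynomial (Fin n) k) (RatFunField k n) f

/-- the cubic curve `y² = (x - e_0)(x - e_1)(x - e_2)` over `K = k(t_1, …, t_n)`, where the `e_i` are
elements of `k[t_1, …, t_n]`; it is an elliptic curve if they are different -/
noncomputable def curve {k : Type} [Field k] {n : ℕ} (e : Fin 3 → MvPolynomial (Fin n) k) :
    WeierstrassCurve.Affine (RatFunField k n) where
  a₁ := 0
  a₂ := -(inField (e 0) + inField (e 1) + inField (e 2))
  a₃ := 0
  a₄ := inField (e 0) * inField (e 1) + inField (e 0) * inField (e 2) + inField (e 1) * inField (e 2)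
  a₆ := -(inField (e 0) * inField (e 1) * inField (e 2))

open Classical in
/-- the group `E(K) / 2 E(K)` -/
abbrev Mod2 {k : Type} [Field k] {n : ℕ} (e : Fin 3 → MvPolynomial (Fin n) k) : Type :=
  (curve e).Point ⧸ (nsmulAddMonoidHom (α := (curve e).Point) 2).range

open Classical in
/-- the group `E(K)` is finitely generated -/
def FinGen {k : Type} [Field k] {n : ℕ} (e : Fin 3 → MvPolynomial (Fin n) k) : Prop :=
  AddGroup.FG (curve e).Point

open Classical in
/-- the rank of the group `E(K)` -/
noncomputable def rank {k : Type} [Field k] {n : ℕ} (e : Fin 3 → MvPolynomial (Fin n) k) : ℕ :=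
  Module.finrank ℤ (curve e).Point

/-- `p_1, …, p_s` are irreducible and pairwise not associated, the `e_i` are different and every prime
factor of a difference `e_i - e_j` is associated to one of the `p_l` -/
structure Admissible {k : Type} [Field k] {n s : ℕ} (p : Fin s → MvPolynomial (Fin n) k)
    (e : Fin 3 → MvPolynomial (Fin n) k) : Prop where
  irreducible : ∀ j, Irreducible (p j)
  not_associated : ∀ i j, i ≠ j → ¬ Associated (p i) (p j)
  injective : Function.Injective e
  factors : ∀ i j, i ≠ j → ∀ π : MvPolynomial (Fin n) k, Prime π → π ∣ e i - e j →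
    ∃ l, Associated π (p l)

/-- **Ranks and rationality.** Let `R` be a commutative ring, `n, s, r` natural numbers, `r + 2 ≤ 2 s`,
`p_1, …, p_s` and `E_0, E_1, E_2` in `R[t_1, …, t_n]`. There are finitely many polynomials `g_j` in
`x_0, …, x_{v-1}` with coefficients in `R` such that for every algebraically closed field `k` of
characteristic `0` and every homomorphism `φ : R → k` for which the `φ(p_j)` and `φ(E_i)` are
admissible the polynomials `φ(g_j)` generate a prime ideal, and the variety `X_φ` they define is rational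
iff it is stably rational iff `E(K) / 2 E(K)` (a finite group) has at least `2 ^ (r + 2)` elements, where
`E` is the elliptic curve `y² = (x - φ(E_0))(x - φ(E_1))(x - φ(E_2))` over `K = k(t_1, …, t_n)`; if
`E(K)` is finitely generated, iff the rank of `E(K)` is at least `r`. -/
theorem result : ∀ (R : Type) [CommRing R] (n s r : ℕ), r + 2 ≤ 2 * s →
    ∀ (p : Fin s → MvPolynomial (Fin n) R) (E : Fin 3 → MvPolynomial (Fin n) R),
    ∃ (v q : ℕ) (g : Fin q → MvPolynomial (Fin v) R),
      ∀ (k : Type) [Field k] [IsAlgClosed k] [CharZero k] (φ : R →+* k),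
        Admissible (fun j => MvPolynomial.map φ (p j)) (fun i => MvPolynomial.map φ (E i)) →
        (ideal g φ).IsPrime ∧
          Finite (Mod2 fun i => MvPolynomial.map φ (E i)) ∧
          (IsRational g φ ↔ 2 ^ (r + 2) ≤ Nat.card (Mod2 fun i => MvPolynomial.map φ (E i))) ∧
          (IsStablyRational g φ ↔ 2 ^ (r + 2) ≤ Nat.card (Mod2 fun i => MvPolynomial.map φ (E i))) ∧
          (FinGen (fun i => MvPolynomial.map φ (E i)) →
            (IsRational g φ ↔ r ≤ rank fun i => MvPolynomial.map φ (E i)) ∧
            (IsStablyRational g φ ↔ r ≤ rank fun i => MvPolynomial.map φ (E i))) := by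
  classical
  intro R _ n s r hr p E
  have hN : 2 ^ (r + 2) ≤ 4 ^ s := by
    calc 2 ^ (r + 2) ≤ 2 ^ (2 * s) := Nat.pow_le_pow_right (by norm_num) hr
      _ = 4 ^ s := by rw [pow_mul]; norm_num
  obtain ⟨v, q, g, h⟩ := Pool.Agent.Helper68.RK.aRF R n s p E (2 ^ (r + 2)) (Nat.one_le_two_pow) hN
  refine ⟨v, q, g, fun k _ _ _ φ hA => ?_⟩
  have hI : Pool.Agent.Helper44.CMF.Irr (fun j => MvPolynomial.map φ (p j)) :=
    ⟨hA.irreducible, hA.not_associated⟩
  have hD : Pool.Agent.Helper68.RK.Disc (fun j => MvPolynomial.map φ (p j))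
      (fun i => MvPolynomial.map φ (E i)) := ⟨hA.injective, hA.factors⟩
  obtain ⟨⟨g1, g2, g3⟩, h2⟩ := h k φ hI hD
  refine ⟨g1, Pool.Agent.Helper68.RK.finQ k n s _ hI _ hD, g2, g3, fun hF => ?_⟩
  obtain ⟨-, g5, g6⟩ := h2 hF r rfl
  exact ⟨g5, g6⟩

end Pool.Agent.Results.MP_1dc56d_ag.RankFamily
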